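import Mathlib
import Pool.Agent.Y859.SF.Stm

/-! SF-ES1L (job 10384 of helper859). -/

set_option autoImplicit false

namespace Pool.Agent.Y891.SF

open Pool.Agent.Y859.SF

theorem card_bound (a : ℕ) :
    4 * ((Finset.Ioc 0 a).filter (fun x => ¬ 4 ∣ x)).card ≤ 3 * a + 3 := by
  have h1 := Nat.Ioc_filter_dvd_card_eq_div a 4
  have h2 := Finset.card_filter_add_card_filter_not (s := Finset.Ioc 0 a) (fun x => 4 ∣ x)
  rw [h1, Nat.card_Ioc] at h2
  omega

theorem log43 : (28 / 100 : ℝ) ≤ Real.log (4 / 3) := by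
  have h1 : Real.exp 28 ≤ (4 / 3 : ℝ) ^ 100 := by
    have h2 : Real.exp 28 = Real.exp 1 ^ 28 := by
      rw [← Real.exp_nat_mul]
      norm_num
    rw [h2]
    have h3 := Real.exp_one_lt_d9
    calc Real.exp 1 ^ 28 ≤ (2.7182818286 : ℝ) ^ 28 :=
          pow_le_pow_left₀ (Real.exp_pos 1).le h3.le _
      _ ≤ (4 / 3 : ℝ) ^ 100 := by norm_num
  have h4 : (28 : ℝ) ≤ Real.log ((4 / 3 : ℝ) ^ 100) := by
    rw [Real.le_log_iff_exp_le (by positivity)]
    exact h1
  rw [Real.log_pow] at h4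
  push_cast at h4
  linarith

theorem main (K : ℕ) : ∀ T : Finset ℕ, (∀ a ∈ T, 1 ≤ a ∧ ¬ 4 ∣ a) → T.card = K + 1 →
    K * Real.log (4 / 3) + Real.log (K.factorial) ≤ ∑ a ∈ T, Real.log a := by
  induction K with
  | zero =>
    intro T hT _
    simp only [Nat.cast_zero, zero_mul, Nat.factorial_zero, Nat.cast_one, Real.log_one, add_zero]
    refine Finset.sum_nonneg fun a ha => Real.log_nonneg ?_
    exact_mod_cast (hT a ha).1
  | succ K ih =>
    intro T hT hc
    have hne : T.Nonempty := by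
      rw [← Finset.card_pos]
      omega
    set a := T.max' hne with ha
    have haT : a ∈ T := T.max'_mem hne
    have h1 := ih (T.erase a) (fun b hb => hT b (Finset.mem_of_mem_erase hb)) (by
      rw [Finset.card_erase_of_mem haT, hc]
      rfl)
    have h2 := Finset.add_sum_erase T (fun x : ℕ => Real.log x) haT
    have h3 : T ⊆ (Finset.Ioc 0 a).filter (fun x => ¬ 4 ∣ x) := by
      intro b hb
      rw [Finset.mem_filter, Finset.mem_Ioc]
      exact ⟨⟨(hT b hb).1, T.le_max' b hb⟩, (hT b hb).2⟩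
    have h4 := Finset.card_le_card h3
    have h5 := card_bound a
    have h6 : 4 * (K + 1) ≤ 3 * a := by omega
    have h7 : (4 / 3 : ℝ) * ((K + 1 : ℕ) : ℝ) ≤ a := by
      have : ((4 * (K + 1) : ℕ) : ℝ) ≤ ((3 * a : ℕ) : ℝ) := by exact_mod_cast h6
      push_cast at this ⊢
      linarith
    have h8 : Real.log ((4 / 3 : ℝ) * ((K + 1 : ℕ) : ℝ)) ≤ Real.log a :=
      Real.log_le_log (by positivity) h7
    rw [Real.log_mul (by norm_num) (by positivity)] at h8
    have h9 : Real.log ((K + 1).factorial : ℝ) = Real.log ((K + 1 : ℕ) : ℝ) +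
        Real.log (K.factorial : ℝ) := by
      rw [Nat.factorial_succ, Nat.cast_mul, Real.log_mul (by positivity) (by positivity)]
    rw [h9, ← h2]
    push_cast at h8 h1 ⊢
    linarith

/-- SF-ES1L -/
theorem t_ES1L : S_ES1L := by
  intro T hT
  rcases Nat.eq_zero_or_pos T.card with h0 | h0
  · have : T = ∅ := Finset.card_eq_zero.1 h0
    subst this
    simp
  · obtain ⟨K, hK⟩ : ∃ K, T.card = K + 1 := ⟨T.card - 1, by omega⟩
    have h1 := main K T hT hK
    have h2 := log43
    have h9 : Real.log ((K + 1).factorial : ℝ) = Real.log ((K + 1 : ℕ) : ℝ) +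
        Real.log (K.factorial : ℝ) := by
      rw [Nat.factorial_succ, Nat.cast_mul, Real.log_mul (by positivity) (by positivity)]
    rw [hK, h9]
    have h3 : Real.log ((K + 1 : ℕ) : ℝ) ≤ Real.log (((K + 1 : ℕ) : ℝ) + 1) :=
      Real.log_le_log (by positivity) (by linarith)
    have h4 : 0 ≤ Real.log (((K + 1 : ℕ) : ℝ) + 1) := Real.log_nonneg (by
      have : (0 : ℝ) ≤ ((K + 1 : ℕ) : ℝ) := Nat.cast_nonneg _
      linarith)
    have h5 : (K : ℝ) * (28 / 100) ≤ K * Real.log (4 / 3) :=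
      mul_le_mul_of_nonneg_left h2 (Nat.cast_nonneg _)
    have h6 : (((K + 1 : ℕ) : ℝ)) = K + 1 := by push_cast; ring
    nlinarith

end Pool.Agent.Y891.SF
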